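import Pool.Agent.MP_077ac3_nt.H18.Main
import Pool.Agent.MP_077ac3_nt.H88.Final

set_option autoImplicit false

namespace Pool.Agent.Results.MP_077ac3_nt.SmallGcd

theorem result :
    ∀ b : ℕ, 2 ≤ b → ∀ α β : ℝ, Irrational α → IsAlgebraic ℚ α → IsAlgebraic ℚ β →
      ∀ ε : ℝ, 0 < ε → ∀ k0 L : ℕ, ∃ M : ℕ, ∀ m : ℕ, M ≤ m → ∀ k : ℕ, k ≤ k0 + L * m →
        ((Int.gcd (⌊α * (b : ℝ) ^ (k + m)⌋ * ⌊β * (b : ℝ) ^ m⌋ + 1) ((b : ℤ) ^ m) : ℕ) : ℝ) <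
          (b : ℝ) ^ (ε * m) :=
  fun b hb α β hα aα aβ ε hε k0 L =>
    Pool.Agent.MP_077ac3_nt.H88.final_gen Pool.Agent.MP_077ac3_nt.H18.seq b hb α β hα aα aβ ε hε k0 L

end Pool.Agent.Results.MP_077ac3_nt.SmallGcd
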